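import Pool.Agent.KS6_74.OP.Defs
import Pool.Agent.KS6_5.SP.Angle
import Pool.Graph.R_pool_sql_team_seeded_2aa45f1a.Q64.L.Pairs
import Pool.Graph.R_seed8.Y1.CT.Field
import Pool.Graph.R_seed8.Y1.CT.IndepDefs

/-!
# Numbers supported at one place: the condition on the relations with the other factor
-/

set_option autoImplicit false

namespace Pool.Agent.KS6_74.OP

open NumberField Polynomial IntermediateField Pool.Agent.TH121.KT Pool.Agent.KS6_5.SP
  Pool.Agent.Y1.CT Pool.Agent.Q64.L Pool.Agent.W484.HS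

noncomputable section

variable {p : ℕ} [Fact p.Prime] {a : ℕ} {I : Type} [Fintype I] {E : I → Type}
  [∀ i, Field (E i)] [∀ i, NumberField (E i)] [∀ i, IsCMField (E i)] {π : ∀ i, E i}
  {F : IntermediateField ℚ Qb} [FiniteDimensional ℚ F]

/-- a product over a list in terms of the multiplicities of the labels -/
theorem prod_labels {X Y : Type*} [Fintype X] [DecidableEq X] {R : Type*} [CommMonoid R]
    (lab : Y → X) (g : X → R) (ys : List Y) :
    (ys.map fun y => g (lab y)).prod = ∏ x, g x ^ (ys.map lab).count x := by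
  induction ys with
  | nil => simp
  | cons y ys ih =>
    rw [List.map_cons, List.prod_cons, ih, List.map_cons]
    have h1 : ∀ x, g x ^ (lab y :: ys.map lab).count x =
        (if lab y = x then g x else 1) * g x ^ (ys.map lab).count x := by
      intro x
      rw [List.count_cons]
      by_cases h : lab y = x
      · subst h
        simp only [beq_self_eq_true, if_true]
        rw [pow_succ, mul_comm]
      · rw [if_neg h, one_mul, if_neg (by simpa using h), add_zero]
    rw [Finset.prod_congr rfl fun x _ => h1 x, Finset.prod_mul_distrib,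
      Finset.prod_ite_eq Finset.univ, if_pos (Finset.mem_univ _)]

/-- The relations over the complex numbers. -/
theorem pair_complex (H : OnePlaceWeilOne p a F π) {f : I → ℤ[X]}
    (hf : ∀ i, IsPolyOf (π i) (f i)) (s : ℕ) (hs : 0 < s) {χ : ℚ[X]} (hχ : χ ≠ 0)
    (hP : ForeignOrSmallRoots p a F π χ) (ρ : ℂ) (hρ : aeval ρ χ = 0) :
    ExactPairK (fun z : {z : ℂ // ∃ i, aeval z (f i) = 0} => (z : ℂ) ^ s)
      (((p ^ a : ℕ) : ℂ) ^ s) ρ := by
  classical
  let τ : Qb →+* ℂ := (IsAlgClosed.lift : Qb →ₐ[ℚ] ℂ).toRingHom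
  obtain ⟨ιp⟩ : Nonempty (Qb →ₐ[ℚ] PadicAlgCl p) := ⟨IsAlgClosed.lift⟩
  obtain ⟨γ, hγχ, hγ⟩ := exists_root τ hχ hρ
  have hlab : ∀ z : {z : ℂ // ∃ i, aeval z (f i) = 0},
      ∃ x : Σ i, (E i →+* Qb), τ (x.2 (π x.1)) = z := by
    rintro ⟨z, i, hz⟩
    obtain ⟨φ, hφ⟩ := (hf i).2 z hz
    obtain ⟨σ, hσ⟩ := exists_lift τ φ
    refine ⟨⟨i, σ⟩, ?_⟩
    change (τ.comp σ) (π i) = z
    rw [hσ, hφ]
  choose lab hlab using hlab
  intro n c N hN hn ys hlen hrel hpw
  have hπ0 : ∀ i, π i ≠ 0 := by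
    intro i h0
    have h1 := (H.weil i).weight
    rw [h0, zero_mul] at h1
    exact natp_ne p a h1.symm
  have hq0 : ((p : Qb) ^ a) ≠ 0 := natp_ne p a
  let vl : (Σ i, (E i →+* Qb)) → Qb := fun x => x.2 (π x.1)
  let al : (Σ i, (E i →+* Qb)) → Qb := fun x => x.2 (angle p a (π x.1))
  have hal : ∀ x, vl x ^ 2 = al x * (p : Qb) ^ a := by
    intro x
    change (x.2 (π x.1)) ^ 2 = x.2 (angle p a (π x.1)) * (p : Qb) ^ a
    rw [angle, map_div₀, map_pow, map_pow, map_natCast, div_mul_cancel₀ _ (natp_ne p a)]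
  -- the relation between algebraic numbers
  have hrel1 : ((ys.map fun y => vl (lab y) ^ s).prod * γ) ^ N = ((((p : Qb) ^ a) ^ s) ^ c) ^ N := by
    apply τ.injective
    rw [map_pow, map_mul, _root_.map_list_prod, List.map_map, map_pow, map_zpow₀, map_pow, map_pow,
      map_natCast, hγ]
    have h1 : (⇑τ ∘ fun y => vl (lab y) ^ s) =
        fun z : {z : ℂ // ∃ i, aeval z (f i) = 0} => (z : ℂ) ^ s := by
      funext z
      change τ (vl (lab z) ^ s) = _
      rw [map_pow]
      congr 1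
      exact hlab z
    rw [h1, hrel]
    push_cast
    rfl
  let cnt : (Σ i, (E i →+* Qb)) → ℕ := fun x => (ys.map lab).count x
  have hprod : (ys.map fun y => vl (lab y) ^ s).prod = ∏ x, (vl x ^ s) ^ cnt x :=
    prod_labels lab (fun x => vl x ^ s) ys
  have hsum : ∑ x, cnt x = n := by
    have h1 := List.sum_map_count_dedup_eq_length (ys.map lab)
    rw [List.length_map, hlen] at h1
    have h2 : ∑ x, cnt x = (ys.map lab).length := by
      have h3 := prod_labels (R := Multiplicative ℕ) lab (fun _ => Multiplicative.ofAdd 1) ys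
      have h4 := congrArg Multiplicative.toAdd h3
      rw [List.map_const', List.prod_replicate, toAdd_pow, toAdd_prod] at h4
      simp only [toAdd_pow, toAdd_ofAdd, smul_eq_mul, mul_one] at h4
      rw [List.length_map]
      exact h4.symm
    rw [h2, List.length_map, hlen]
  have hrel2 : (∏ x : Σ i, (E i →+* Qb), (x.2 (angle p a (π x.1))) ^ (s * N * cnt x)) *
      γ ^ (2 * N) = (((((p : ℚ) ^ a) ^ (s * (c * (2 * N)) - s * N * n : ℤ)) : ℚ) : Qb) := by
    have h1 := congrArg (fun z => z ^ 2) hrel1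
    rw [hprod] at h1
    have h2 : (((∏ x, (vl x ^ s) ^ cnt x) * γ) ^ N) ^ 2 =
        ((∏ x : Σ i, (E i →+* Qb), (x.2 (angle p a (π x.1))) ^ (s * N * cnt x)) * γ ^ (2 * N)) *
          ((p : Qb) ^ a) ^ (s * N * n) := by
      rw [mul_pow, mul_pow, ← Finset.prod_pow, ← Finset.prod_pow]
      have h3 : ∀ x, (((vl x ^ s) ^ cnt x) ^ N) ^ 2 = (al x) ^ (s * N * cnt x) *
          ((p : Qb) ^ a) ^ (s * N * cnt x) := by
        intro x
        rw [← mul_pow, ← hal, ← pow_mul, ← pow_mul, ← pow_mul, ← pow_mul]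
        congr 1
        ring
      rw [Finset.prod_congr rfl fun x _ => h3 x, Finset.prod_mul_distrib,
        Finset.prod_pow_eq_pow_sum, ← Finset.mul_sum, hsum]
      ring
    have h4 : ((((((p : Qb) ^ a) ^ s) ^ c) ^ N) ^ 2) =
        ((p : Qb) ^ a) ^ (s * (c * (2 * N)) : ℤ) := by
      rw [← zpow_natCast (((((p : Qb) ^ a) ^ s) ^ c) ^ N) 2,
        ← zpow_natCast ((((p : Qb) ^ a) ^ s) ^ c) N, ← zpow_natCast ((p : Qb) ^ a) s, ← zpow_mul,
        ← zpow_mul, ← zpow_mul]
      congr 1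
      push_cast
      ring
    rw [h2, h4] at h1
    have h5 : (((((p : ℚ) ^ a) ^ (s * (c * (2 * N)) - s * N * n : ℤ)) : ℚ) : Qb) =
        ((p : Qb) ^ a) ^ (s * (c * (2 * N)) : ℤ) / ((p : Qb) ^ a) ^ (s * N * n) := by
      rw [zpow_sub₀ (by exact_mod_cast (natp_ne p a : ((p : ℚ) ^ a) ≠ 0))]
      push_cast
      congr 1
      rw [← zpow_natCast ((p : Qb) ^ a) (s * N * n)]
      push_cast
      rfl
    rw [h5, ← h1, mul_div_cancel_right₀ _ (pow_ne_zero _ hq0)]
  have hγ0 : γ ≠ 0 := by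
    rintro rfl
    apply hP.1
    have h1 := hγχ
    rw [aeval_def, eval₂_at_zero] at h1
    exact (_root_.map_eq_zero _).1 h1
  -- the first letter
  obtain ⟨y₀, hy₀⟩ : ∃ y, y ∈ ys := by
    rcases ys with _ | ⟨y, ys⟩
    · simp at hlen
      omega
    · exact ⟨y, by simp⟩
  have hbal := balanced_qb H.family ιp cnt (fun _ => s * N) (fun _ => Nat.mul_pos hs hN) (2 * N) γ
    hγ0 _ hrel2 (lab y₀) (by
      rcases hP.2 γ hγχ (lab y₀).1 with h | ⟨c, hc⟩
      · exact Or.inl h
      · refine Or.inr ⟨c, fun σ l l' hl => ?_⟩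
        have h1 := hc σ l l' hl
        have hN' : (0 : ℝ) < N := Nat.cast_pos.2 hN
        have hs' : (1 : ℝ) ≤ s := by exact_mod_cast hs
        push_cast
        have h2 := mul_lt_mul_of_pos_left h1 hN'
        calc 2 * (N : ℝ) * |Real.log ‖l γ‖ - c|
            = N * (2 * |Real.log ‖l γ‖ - c|) := by ring
          _ < N * (1 * |Real.log ‖l' (σ (angle p a (π (lab y₀).1)))‖|) := h2
          _ ≤ s * N * |Real.log ‖l' (σ (angle p a (π (lab y₀).1)))‖| := by
            rw [one_mul]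
            exact mul_le_mul_of_nonneg_right (le_mul_of_one_le_left hN'.le hs') (abs_nonneg _))
  have hc0 : 0 < cnt (lab y₀) := List.count_pos_iff.2 (List.mem_map.2 ⟨y₀, hy₀, rfl⟩)
  rw [hbal] at hc0
  obtain ⟨y₁, hy₁, hy₁'⟩ := List.mem_map.1 (List.count_pos_iff.1 hc0)
  have hne : ∀ x : Σ i, (E i →+* Qb), cjS x ≠ x := by
    rintro ⟨i, σ⟩ h
    have h1 : cj σ = σ := eq_of_heq (Sigma.mk.inj_iff.1 h).2
    have h2 : ∀ x : E i, IsCMField.complexConj (E i) x = x := by
      intro x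
      exact σ.injective (RingHom.congr_fun h1 x)
    exact IsCMField.complexConj_ne_one (E i) (AlgEquiv.ext h2)
  have hne' : y₀ ≠ y₁ := by
    rintro rfl
    exact hne _ hy₁'.symm
  have hsym : Std.Symm (fun y y' : {z : ℂ // ∃ i, aeval z (f i) = 0} =>
      (y : ℂ) ^ s * (y' : ℂ) ^ s ≠ ((p ^ a : ℕ) : ℂ) ^ s) :=
    ⟨fun y y' h => by rwa [mul_comm]⟩
  refine List.Pairwise.forall (R := fun y y' : {z : ℂ // ∃ i, aeval z (f i) = 0} =>
      (y : ℂ) ^ s * (y' : ℂ) ^ s ≠ ((p ^ a : ℕ) : ℂ) ^ s) hpw hy₀ hy₁ hne' ?_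
  rw [← mul_pow]
  congr 1
  rw [← hlab y₀, ← hlab y₁, hy₁', ← map_mul]
  change τ ((lab y₀).2 (π (lab y₀).1) * (lab y₀).2 (IsCMField.complexConj _ (π (lab y₀).1))) = _
  rw [← map_mul, (H.weil _).weight, map_pow, map_pow, map_natCast, map_natCast]
  push_cast
  rfl

/-- **Weil numbers supported at one place of `F` are good.** -/
theorem good_onePlace (H : OnePlaceWeilOne p a F π) {f : I → ℤ[X]}
    (hf : ∀ i, IsPolyOf (π i) (f i)) : Good (ForeignOrSmallRoots p a F π) (p ^ a) f where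
  monic i := (hf i).1
  one := by
    refine ⟨by simp, fun ρ hρ i => Or.inr ?_⟩
    have h1 : ρ = 1 := by
      rw [map_sub, aeval_X, map_one, sub_eq_zero] at hρ
      exact hρ
    rw [h1]
    exact small_one (H.weil i).angle
  coeff := fun χ h => h.1
  pair := fun L _ _ s hs χ hχ hP ρ hρ =>
    exactPair_field f (fun i => (hf i).1) (p ^ a) s χ hχ
      (fun ρ hρ => pair_complex H hf s hs hχ hP ρ hρ) ρ hρ

end

end Pool.Agent.KS6_74.OP
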