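import Pool.Agent.KS6_5.SP.Defs

/-!
# The eigenvalues of the second factor: the condition on a polynomial
-/

set_option autoImplicit false

namespace Pool.Agent.KS6_74.OP

open Polynomial Pool.Agent.KS6_5.SP

/-- The polynomial `χ` has a nonzero constant coefficient, and each root `ρ` of `χ` satisfies the
following condition for all `i`: for some `m > 0` the field generated by `F` and `ρ ^ m` contains no
conjugate of the field `E i`, or the absolute values of `ρ` at the `p`-adic places differ, up to a
common factor, by less than half of the (logarithmic) absolute values different from one of the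
conjugates of `π i ^ 2 / p ^ a`. -/
def ForeignOrSmallRoots (p : ℕ) [Fact p.Prime] (a : ℕ)
    (F : IntermediateField ℚ (AlgebraicClosure ℚ)) {I : Type} {E : I → Type} [∀ i, Field (E i)]
    (π : ∀ i, E i) (χ : ℚ[X]) : Prop :=
  χ.coeff 0 ≠ 0 ∧ ∀ ρ : AlgebraicClosure ℚ, aeval ρ χ = 0 → ∀ i,
    NotOver F (E i) ρ ∨ SmallerSlopes p (angle p a (π i)) 2 1 ρ

end Pool.Agent.KS6_74.OP
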